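import Pool.Agent.Helper96.LC.Stmts

/-! # Row RAY -/

set_option linter.all false

namespace Pool.Agent.Helper96.LC.RayAux
open Finset
open Pool.Agent.Helper44.Lag

variable (p q : ℕ) (t : ℝ)

lemma RR_of_path (hp : 0 < p) (ht : (q : ℝ) ≤ t * (p - q)) {u v : ℤ} (h : Relation.ReflTransGen (Stp p q) u v) :
    ∃ l, RR p q t u v l := by
  induction h with
  | refl => exact ⟨0, RR_refl p q t u⟩
  | @tail b c _ h2 ih =>
    obtain ⟨l, hl⟩ := ih
    refine ⟨l + 1, RR_trans p q t hl (RR_step p q t hp ?_)⟩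
    unfold Stp at h2
    have h3 : ((|(q:ℤ) * c - p * b| : ℤ) : ℝ) ≤ ((q : ℤ) : ℝ) := by exact_mod_cast h2
    push_cast at h3 ⊢
    linarith

lemma stage (hS : ST_STEER) (hq : 0 < q) (hcop : Nat.Coprime p q) (hpq : 4 * q ≤ p) (ht : 1 ≤ 2 * q * t) (ht2 : t ≤ 1 / 2)
    (ht3 : (q : ℝ) ≤ t * (p - q)) (u : ℤ) (δ : ℝ) (hδ : 0 < δ) :
    ∃ v : ℤ, ∃ l : ℕ, 1 ≤ l ∧ RR p q t u v l ∧ ∃ j ≤ l, ∀ x : ℝ, |x - v| ≤ t → t - δ ≤ nn (((q:ℝ)/p)^j * x) := by
  have hq0 : (0:ℝ) < q := by exact_mod_cast hq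
  have ht0 : 0 < t := by
    by_contra h; push Not at h; nlinarith
  have hp : 0 < p := by omega
  set δ' := min δ t with hδ'
  have hδ'0 : 0 < δ' := lt_min hδ ht0
  obtain ⟨n, hn⟩ := pow_unbounded_of_one_lt (t / δ') (show (1:ℝ) < 2 by norm_num)
  rw [div_lt_iff₀ hδ'0] at hn
  obtain ⟨l', ρ, hρ⟩ := word p q t hq hcop hpq ht n (t - δ') t (by linarith [min_le_right δ t]) le_rfl (by rw [sub_sub_cancel]; exact hn.le)
  obtain ⟨v0, hpath, hv0⟩ := hS p q hq hcop hpq l' u ρ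
  obtain ⟨l0, hl0⟩ := RR_of_path p q t hp ht3 hpath
  obtain ⟨v', hR, hab⟩ := hρ v0 hv0
  have hl' : 1 ≤ l' := by
    by_contra h
    have : l' = 0 := by omega
    subst this
    have h1 := (hab (v' - t) (by rw [sub_sub_cancel_left, abs_neg, abs_of_pos ht0])).1
    have h2 := (hab (v' + t) (by rw [add_sub_cancel_left, abs_of_pos ht0])).2
    simp at h1 h2
    have := min_le_right δ t
    linarith
  refine ⟨v', l0 + l', by omega, RR_trans p q t hl0 hR, l', by omega, ?_⟩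
  intro x hx
  obtain ⟨h1, h2⟩ := hab x hx
  have h3 := min_le_right δ t
  have h4 := min_le_left δ t
  have := nn_lower (X := ((q:ℝ)/p)^l' * x) (v := v0) (by linarith) (by linarith)
  linarith

theorem ray (hS : ST_STEER) (hq : 0 < q) (hcop : Nat.Coprime p q) (hpq : 4 * q ≤ p) (ht : 1 ≤ 2 * q * t) (ht2 : t ≤ 1 / 2)
    (ht3 : (q : ℝ) ≤ t * (p - q)) :
    ∃ ξ : ℝ, Filter.limsup (fun n : ℕ => nn (ξ * ((p:ℝ)/q)^n)) Filter.atTop = t := by
  have hq0 : (0:ℝ) < q := by exact_mod_cast hq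
  have hp : 0 < p := by omega
  have hp0 : (0:ℝ) < p := by exact_mod_cast hp
  have ht0 : 0 < t := by
    by_contra h; push Not at h; nlinarith
  have hst : ∀ u : ℤ, ∀ i : ℕ, ∃ v : ℤ, ∃ l : ℕ, 1 ≤ l ∧ RR p q t u v l ∧ ∃ j ≤ l, ∀ x : ℝ, |x - v| ≤ t → t - 1 / (i + 1 : ℝ) ≤ nn (((q:ℝ)/p)^j * x) :=
    fun u i => stage p q t hS hq hcop hpq ht ht2 ht3 u _ (by positivity)
  choose V Lg h1 h2 Jx h3 h4 using hst
  let s : ℕ → ℤ × ℕ := fun i => Nat.rec (0, 0) (fun i s => (V s.1 i, s.2 + Lg s.1 i)) i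
  have hs : ∀ i, s (i+1) = (V (s i).1 i, (s i).2 + Lg (s i).1 i) := fun i => rfl
  set α : ℝ := (p:ℝ)/q with hα
  have hα0 : 0 < α := by positivity
  have hqp : (q:ℝ)/p = α⁻¹ := by rw [hα, inv_div]
  let I : ℕ → Set ℝ := fun i => {ξ | |ξ * α ^ (s i).2 - (s i).1| ≤ t}
  have hback : ∀ (ξ : ℝ) (m j : ℕ), j ≤ m → ((q:ℝ)/p)^j * (ξ * α ^ m) = ξ * α ^ (m - j) := by
    intro ξ m j hj
    rw [hqp, inv_pow, pow_sub₀ _ hα0.ne' hj]; ring
  have hnest : ∀ i, I (i+1) ⊆ I i := by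
    intro i ξ hξ
    have hξ' : |ξ * α ^ (s (i+1)).2 - (s (i+1)).1| ≤ t := hξ
    rw [hs] at hξ'
    have h5 := (h2 (s i).1 i _ hξ').1
    rw [hback _ _ _ (Nat.le_add_left _ _), Nat.add_sub_cancel] at h5
    exact h5
  have hcl : ∀ i, IsClosed (I i) := fun i => isClosed_le (by fun_prop) continuous_const
  have hne : ∀ i, (I i).Nonempty := by
    intro i
    refine ⟨(s i).1 / α ^ (s i).2, ?_⟩
    show |(s i).1 / α ^ (s i).2 * α ^ (s i).2 - ((s i).1:ℝ)| ≤ t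
    rw [div_mul_cancel₀ _ (by positivity), sub_self, abs_zero]; exact ht0.le
  have hcpt : IsCompact (I 0) := by
    have : I 0 = Set.Icc (-t) t := by
      ext ξ
      show |ξ * α ^ 0 - ((0:ℤ):ℝ)| ≤ t ↔ _
      simp [abs_le]
    rw [this]; exact isCompact_Icc
  obtain ⟨ξ, hξ⟩ := IsCompact.nonempty_iInter_of_sequence_nonempty_isCompact_isClosed I hnest hne hcpt hcl
  rw [Set.mem_iInter] at hξ
  refine ⟨ξ, ?_⟩
  have hup : ∀ i, ∀ n ≤ (s i).2, nn (ξ * α ^ n) ≤ t := by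
    intro i
    induction i with
    | zero =>
      intro n hn
      have hn' : n ≤ 0 := hn
      have hn0 : n = 0 := by omega
      subst hn0
      have := hξ 0
      exact (nn_le _ _).trans this
    | succ i ih =>
      intro n hn
      by_cases hni : n ≤ (s i).2
      · exact ih n hni
      have h5 : |ξ * α ^ (s (i+1)).2 - (s (i+1)).1| ≤ t := hξ (i+1)
      rw [hs] at h5 hn
      have h6 := (h2 (s i).1 i _ h5).2 ((s i).2 + Lg (s i).1 i - n) (by simp only at hn; omega)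
      rw [hback _ _ _ (Nat.sub_le _ _), Nat.sub_sub_self hn] at h6
      exact h6
  have hge : ∀ i, i ≤ (s i).2 := by
    intro i; induction i with
    | zero => simp
    | succ i ih =>
      rw [hs]; have := h1 (s i).1 i; simp only; omega
  have hall : ∀ n, nn (ξ * α ^ n) ≤ t := fun n => hup n n (hge n)
  have hpk : ∀ i : ℕ, ∃ n : ℕ, i ≤ n ∧ t - 1 / (i + 1 : ℝ) ≤ nn (ξ * α ^ n) := by
    intro i
    have h5 : |ξ * α ^ (s (i+1)).2 - (s (i+1)).1| ≤ t := hξ (i+1)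
    rw [hs] at h5
    have h6 := h4 (s i).1 i _ h5
    have h7 := h3 (s i).1 i
    rw [hback _ _ _ (by simp only; omega)] at h6
    refine ⟨_, ?_, h6⟩
    have := hge i
    simp only; omega
  have hnn0 : ∀ x, 0 ≤ nn x := fun x => abs_nonneg _
  apply le_antisymm
  · exact Filter.limsup_le_of_le (Filter.isCoboundedUnder_le_of_le _ (x := 0) fun n => hnn0 _) (Filter.Eventually.of_forall hall)
  · apply le_of_forall_pos_sub_le
    intro ε hε
    apply Filter.le_limsup_of_frequently_le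
    · rw [Filter.frequently_atTop]
      intro N
      obtain ⟨i, hi⟩ := exists_nat_one_div_lt hε
      obtain ⟨n, hn1, hn2⟩ := hpk (max i N)
      refine ⟨n, (le_max_right _ _).trans hn1, ?_⟩
      have : (1:ℝ) / ((max i N : ℕ) + 1 : ℝ) ≤ 1 / (i + 1 : ℝ) := by
        apply one_div_le_one_div_of_le (by positivity)
        have : (i:ℝ) ≤ ((max i N : ℕ) : ℝ) := by exact_mod_cast le_max_left i N
        linarith
      linarith
    · exact Filter.isBoundedUnder_of ⟨t, hall⟩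


end Pool.Agent.Helper96.LC.RayAux

namespace Pool.Agent.Helper96.LC

theorem st_RAY (h : ST_STEER) : ST_RAY := fun p q t hq hcop hpq ht ht2 ht3 =>
  RayAux.ray p q t h hq hcop hpq ht ht2 ht3

end Pool.Agent.Helper96.LC
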